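import Pool.Agent.Helper69.LZ.Act

/-!
# The differences `g_j = L_j - t L_(j-1)` and the full twist
-/

set_option autoImplicit false

namespace Pool.Agent.Helper69.LZ

/-- `g_j = L_j - t L_(j-1)` for `j ≥ 1`, numbered from `0`: `gg t L j = g_(j+1)`. -/
noncomputable def gg (t : ℂ) (L : ℕ → ℂ) (j : ℕ) : ℂ := L (j + 1) - t * L j

theorem gg_Tr_lt (t : ℂ) (L : ℕ → ℂ) {r j : ℕ} (h : j + 1 < r) :
    gg t (Tr t r L) j = gg t L (j + 1) := by
  unfold gg Tr
  rw [if_pos h, if_pos (by omega), pow_succ]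
  ring

theorem gg_Tr_self (t : ℂ) (L : ℕ → ℂ) {r : ℕ} (h0 : L 0 = 0) :
    gg t (Tr t (r + 1) L) r = t ^ (r + 1) * gg t L 0 + (1 - t) * L (r + 1) := by
  unfold gg Tr
  rw [if_neg (by omega), if_pos (by omega), pow_succ, h0]
  ring

theorem gg_Tr_gt (t : ℂ) (L : ℕ → ℂ) {r j : ℕ} (h : r ≤ j) : gg t (Tr t r L) j = gg t L j := by
  unfold gg Tr
  rw [if_neg (by omega), if_neg (by omega)]

theorem Tr_zero (t : ℂ) (L : ℕ → ℂ) (h0 : L 0 = 0) (r : ℕ) : Tr t r L 0 = 0 := by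
  unfold Tr
  split_ifs
  · rw [pow_zero, one_mul, zero_add, sub_self]
  · exact h0

theorem Tr_ge (t : ℂ) (L : ℕ → ℂ) {r j : ℕ} (h : r ≤ j) : Tr t r L j = L j := by
  unfold Tr
  rw [if_neg (by omega)]

/-- `L` in terms of the differences. -/
theorem eq_sum_gg (t : ℂ) (L : ℕ → ℂ) (h0 : L 0 = 0) (k : ℕ) :
    L k = ∑ j ∈ Finset.range k, t ^ (k - 1 - j) * gg t L j := by
  induction k with
  | zero => rw [Finset.sum_range_zero, h0]
  | succ k ih =>
    rw [Finset.sum_range_succ, Nat.add_sub_cancel, Nat.sub_self, pow_zero, one_mul]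
    have h1 : ∑ j ∈ Finset.range k, t ^ (k - j) * gg t L j = t * L k := by
      rw [ih, Finset.mul_sum]
      refine Finset.sum_congr rfl fun j hj => ?_
      have := Finset.mem_range.1 hj
      rw [show k - j = k - 1 - j + 1 by omega, pow_succ]
      ring
    rw [h1]
    unfold gg
    ring

theorem ext_gg {t : ℂ} {L L' : ℕ → ℂ} (h0 : L 0 = 0) (h0' : L' 0 = 0)
    (h : ∀ j, gg t L j = gg t L' j) : L = L' := by
  funext k
  rw [eq_sum_gg t L h0, eq_sum_gg t L' h0']
  exact Finset.sum_congr rfl fun j _ => by rw [h j]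

/-- `k` steps of `T_N`, `N` the number of strands: the differences move to the left. -/
theorem iter_gg {t : ℂ} {N : ℕ} (hN : 0 < N) {L : ℕ → ℂ} (h0 : L 0 = 0) (hL : ∀ j, N ≤ j → L j = 0)
    (k : ℕ) (hk : k ≤ N) :
    (Tr t N)^[k] L 0 = 0 ∧ (∀ j, N ≤ j → (Tr t N)^[k] L j = 0) ∧
      (∀ j, j + k < N → gg t ((Tr t N)^[k] L) j = gg t L (j + k)) ∧
      ∀ j, j < N → N ≤ j + k → gg t ((Tr t N)^[k] L) j = t ^ N * gg t L (j + k - N) := by
  induction k with
  | zero => exact ⟨h0, hL, fun j _ => rfl, fun j h1 h2 => by omega⟩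
  | succ k ih =>
    obtain ⟨i1, i2, i3, i4⟩ := ih (by omega)
    rw [Function.iterate_succ_apply']
    refine ⟨Tr_zero t _ i1 N, fun j hj => ?_, fun j hj => ?_, fun j hj hj2 => ?_⟩
    · rw [Tr_ge t _ hj, i2 j hj]
    · rw [gg_Tr_lt t _ (by omega), i3 (j + 1) (by omega)]
      congr 1
      omega
    · rcases Nat.lt_or_ge (j + 1) N with h | h
      · rw [gg_Tr_lt t _ h, i4 (j + 1) h (by omega)]
        congr 2
        omega
      · obtain rfl : N = j + 1 := by omega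
        rw [gg_Tr_self t _ i1, i2 (j + 1) le_rfl, mul_zero, add_zero]
        rcases Nat.lt_or_ge (0 + k) (j + 1) with h2 | h2
        · rw [i3 0 h2]
          congr 2
          omega
        · omega

/-- The full twist is the scalar `t ^ N`. -/
theorem full_twist {t : ℂ} {N : ℕ} (hN : 0 < N) {L : ℕ → ℂ} (h0 : L 0 = 0)
    (hL : ∀ j, N ≤ j → L j = 0) : (Tr t N)^[N] L = fun j => t ^ N * L j := by
  obtain ⟨h1, h2, -, h4⟩ := iter_gg (t := t) hN h0 hL N le_rfl
  refine ext_gg (t := t) h1 (by rw [h0, mul_zero]) fun j => ?_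
  rcases Nat.lt_or_ge j N with h | h
  · rw [h4 j h (by omega), Nat.add_sub_cancel]
    unfold gg
    ring
  · unfold gg
    simp only []
    rw [h2 (j + 1) (by omega), h2 j h, hL (j + 1) (by omega), hL j h]
    ring

end Pool.Agent.Helper69.LZ
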