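import Pool.Agent.Helper87.LZ.CaseB

/-!
# The half twist in the coordinates `Λ`

`T_n, T_(n-1), …, T_2` (the first one acts first) is the half twist on `n` strands; it sends `Λ_j` to
`- t ^ j Λ_(n-j)`.
-/

set_option autoImplicit false

namespace Pool.Agent.Helper69.LZ

open Pool.Agent.Helper87.LZ

/-- the list `n, n - 1, …, 2` -/
def down (n : ℕ) : List ℕ := (List.range (n - 1)).map fun i => n - i

/-- the half twist in the coordinates `Λ` -/
def Dl (t : ℂ) (n : ℕ) (L : ℕ → ℂ) : ℕ → ℂ := fun j => -t ^ j * L (n - j)

theorem mem_down {n r : ℕ} : r ∈ down n ↔ 2 ≤ r ∧ r ≤ n := by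
  unfold down
  rw [List.mem_map]
  constructor
  · rintro ⟨i, hi, rfl⟩
    rw [List.mem_range] at hi
    omega
  · rintro ⟨h1, h2⟩
    exact ⟨n - r, by rw [List.mem_range]; omega, by omega⟩

theorem down_eq_reverse (n : ℕ) : down n = (List.range' 2 (n - 1)).reverse := by
  unfold down
  refine List.ext_getElem ?_ ?_
  · simp
  · intro i h1 h2
    simp only [List.length_map, List.length_range] at h1
    simp only [List.getElem_map, List.getElem_range, List.getElem_reverse, List.length_range',
      List.getElem_range']
    omega

theorem act_down_aux (t : ℂ) (n : ℕ) {L : ℕ → ℂ} (h0 : L 0 = 0) (hn : L n = 0) :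
    ∀ k : ℕ, k < n → ∀ j : ℕ, j ≤ n → act t ((List.range k).map fun i => n - i) L j =
      if j + k ≤ n then L (j + k) - t ^ j * L k else -t ^ j * L (n - j) := by
  intro k
  induction k with
  | zero =>
    intro _ j hj
    rw [if_pos (by omega), h0, add_zero, mul_zero, sub_zero]
    rfl
  | succ k ih =>
    intro hk j hj
    have ih' := ih (by omega)
    rw [List.range_succ, List.map_append, act_append]
    change T t (n - k) (act t ((List.range k).map fun i => n - i) L) j = _
    unfold T
    by_cases h1 : j < n - k
    · rw [if_pos h1, if_pos (by omega : j + (k + 1) ≤ n), ih' (j + 1) (by omega), ih' 1 (by omega),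
        if_pos (by omega : j + 1 + k ≤ n), if_pos (by omega : 1 + k ≤ n),
        show j + 1 + k = j + (k + 1) by omega, show 1 + k = k + 1 by omega, pow_succ, pow_one]
      ring
    · rw [if_neg h1, if_neg (by omega : ¬ j + (k + 1) ≤ n), ih' j hj]
      split_ifs with h2
      · have e : j + k = n := by omega
        have e' : n - j = k := by omega
        rw [e, hn, e']
        ring
      · rfl

/-- **The half twist.** -/
theorem act_down (t : ℂ) (n : ℕ) {L : ℕ → ℂ} (h0 : L 0 = 0) (hn : L n = 0) :
    ∀ j ≤ n, act t (down n) L j = Dl t n L j := by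
  intro j hj
  unfold down Dl
  rcases Nat.eq_zero_or_pos n with hz | hp
  · subst hz
    have e : j = 0 := by omega
    subst e
    change L 0 = _
    rw [h0]
    simp
  · rw [act_down_aux t n h0 hn (n - 1) (by omega) j hj]
    split_ifs with h
    · rcases Nat.eq_zero_or_pos j with hj0 | hj0
      · subst hj0
        rw [zero_add, pow_zero, one_mul, sub_self, Nat.sub_zero, hn, mul_zero]
      · have e : j = 1 := by omega
        subst e
        rw [show 1 + (n - 1) = n by omega, hn]
        ring
    · rfl

end Pool.Agent.Helper69.LZ
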