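import Pool.Agent.Helper69.LZ.Main
import Pool.Agent.Helper69.LZ.Delta

/-!
# Words in the `T_r`
-/

set_option autoImplicit false

namespace Pool.Agent.Helper69.LZ

open Matrix Polynomial Pool.Agent.Helper76.Conway Pool.Agent.Helper76.Conway.Top
  Pool.Agent.Helper99.ZB Pool.Agent.Helper69.S4 Pool.Agent.Helper87.LZ

/-- the braid word of `T_(r_1) T_(r_2) ⋯`, with `T_r = σ_1 ⋯ σ_(r-1)` (letters from `0`) -/
def wd (A : List ℕ) : List ℕ := A.flatMap fun r => List.range (r - 1)

@[simp] theorem wd_nil : wd [] = [] := rfl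

@[simp] theorem wd_cons (r : ℕ) (A : List ℕ) : wd (r :: A) = List.range (r - 1) ++ wd A := rfl

theorem wd_append (A B : List ℕ) : wd (A ++ B) = wd A ++ wd B := by
  unfold wd
  rw [List.flatMap_append]

theorem wd_lt {n : ℕ} {A : List ℕ} (hA : ∀ r ∈ A, r ≤ n + 1) : ∀ a ∈ wd A, a < n := by
  intro a ha
  unfold wd at ha
  rw [List.mem_flatMap] at ha
  obtain ⟨r, hr, har⟩ := ha
  rw [List.mem_range] at har
  have := hA r hr
  omega

theorem run_wd (t : ℂ) (A : List ℕ) {L : ℕ → ℂ} (h0 : L 0 = 0) : run t (wd A) L = act t A L := by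
  induction A generalizing L with
  | nil => rfl
  | cons r A ih =>
    rw [wd_cons, run_append, run_range t _ L h0, act_cons]
    have e : Tr t (r - 1 + 1) L = T t r L := by
      rcases Nat.eq_zero_or_pos r with hr | hr
      · subst hr
        funext j
        unfold Tr T
        rw [if_neg (by omega : ¬ j < 0)]
        split_ifs with h
        · have : j = 0 := by omega
          subst this
          rw [h0, pow_zero, one_mul, zero_add, sub_self]
        · rfl
      · rw [Nat.sub_add_cancel hr]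
        rfl
    rw [e]
    exact ih (T_zero h0 r)

/-- From the vectors in the coordinates `Λ` to `Free`. -/
theorem free_of_act {n : ℕ} (A : List ℕ)
    (h : ∀ t : ℂ, t ≠ 0 → ‖t‖ < 1 → ‖1 - t‖ ≤ 2 * (1 - ‖t‖) → ∀ L : ℕ → ℂ, L 0 = 0 →
      L (n + 1) = 0 → (∀ j ≤ n + 1, act t A L j = L j) → ∀ j ≤ n + 1, L j = 0) :
    Free n (wd A) := by
  intro s hs0 hs1 hk L hL0 hLn hfix
  rw [run_wd _ _ hL0] at hfix
  have ht : ‖s ^ 2‖ < 1 := by
    rw [norm_pow]
    exact pow_lt_one₀ (norm_nonneg s) hs1 (by norm_num)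
  have h1 := h (s ^ 2) (pow_ne_zero 2 hs0) ht hk.le L hL0 (hLn _ (by omega))
    fun j _ => by rw [hfix]
  funext j
  rcases le_or_gt j (n + 1) with hj | hj
  · exact h1 j hj
  · exact hLn j (by omega)

/-- `Δ A_1 Δ A_2 ⋯ Δ A_k` on `N` strands as a list of indices `r` of the words `T_r` -/
def alt (N : ℕ) (R : List (List ℕ)) : List ℕ := (R.map fun l => down N ++ l).flatten

@[simp] theorem alt_nil (N : ℕ) : alt N [] = [] := rfl

@[simp] theorem alt_cons (N : ℕ) (l : List ℕ) (R : List (List ℕ)) :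
    alt N (l :: R) = down N ++ l ++ alt N R := rfl

theorem alt_le {N : ℕ} {R : List (List ℕ)} (hR : ∀ l ∈ R, ∀ r ∈ l, r ≤ N) :
    ∀ r ∈ alt N R, r ≤ N := by
  intro r hr
  unfold alt at hr
  rw [List.mem_flatten] at hr
  obtain ⟨l, hl, hr⟩ := hr
  rw [List.mem_map] at hl
  obtain ⟨l', hl', rfl⟩ := hl
  rw [List.mem_append] at hr
  rcases hr with hr | hr
  · exact (mem_down.1 hr).2
  · exact hR l' hl' r hr

theorem wd_alt (N : ℕ) (R : List (List ℕ)) :
    wd (alt N R) = (R.map fun l => wd (down N) ++ wd l).flatten := by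
  induction R with
  | nil => rfl
  | cons l R ih =>
    rw [alt_cons, wd_append, wd_append, ih]
    rfl

/-- Two half twists are the full twist. -/
theorem act_down_down (t : ℂ) (N : ℕ) {L : ℕ → ℂ} (h0 : L 0 = 0) (hN : L N = 0) :
    ∀ j ≤ N, act t (down N ++ down N) L j = t ^ N * L j := by
  intro j hj
  rw [act_append]
  have e := act_down t N h0 hN
  have e0 : act t (down N) L 0 = 0 := by
    rw [e 0 (by omega)]
    unfold Dl
    rw [Nat.sub_zero, hN, mul_zero]
  have eN : act t (down N) L N = 0 := by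
    rw [e N le_rfl]
    unfold Dl
    rw [Nat.sub_self, h0, mul_zero]
  rw [act_down t N e0 eN j hj]
  unfold Dl
  rw [e (N - j) (by omega)]
  unfold Dl
  have e1 : N - (N - j) = j := by omega
  have e2 : t ^ N = t ^ j * t ^ (N - j) := by
    rw [← pow_add]
    congr 1
    omega
  rw [e1, e2]
  ring

end Pool.Agent.Helper69.LZ
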