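import Pool.Agent.Helper99.ZB.Zero

/-!
# Burau fixed vectors in the gauge of Lorenz links

A vector of the reduced Burau module of the braid group on `n + 1` strands is written as a function
`L : ℕ → ℂ` with `L 0 = 0` and `L j = 0` for `j > n`. The letter `j` (`j = 1, …, n`) replaces `L j` by
`L (j + 1) - t L j + t L (j - 1)`.
-/

set_option autoImplicit false

namespace Pool.Agent.Helper69.LZ

open Matrix Pool.Agent.Helper99.ZB

/-- one letter -/
noncomputable def sg (t : ℂ) (j : ℕ) (L : ℕ → ℂ) : ℕ → ℂ :=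
  Function.update L j (L (j + 1) - t * L j + t * L (j - 1))

/-- a word, the first letter acts first; the letter `a` of the word is the generator `a + 1` -/
noncomputable def run (t : ℂ) (w : List ℕ) (L : ℕ → ℂ) : ℕ → ℂ :=
  w.foldl (fun L a => sg t (a + 1) L) L

/-- `σ_1 σ_2 … σ_(r-1)` -/
noncomputable def Tr (t : ℂ) (r : ℕ) (L : ℕ → ℂ) : ℕ → ℂ :=
  fun j => if j < r then L (j + 1) - t ^ j * L 1 else L j

@[simp] theorem run_nil (t : ℂ) (L : ℕ → ℂ) : run t [] L = L := rfl

@[simp] theorem run_cons (t : ℂ) (a : ℕ) (w : List ℕ) (L : ℕ → ℂ) :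
    run t (a :: w) L = run t w (sg t (a + 1) L) := rfl

theorem run_append (t : ℂ) (v w : List ℕ) (L : ℕ → ℂ) :
    run t (v ++ w) L = run t w (run t v L) := by
  unfold run
  rw [List.foldl_append]

/-- `T_r` in terms of letters. -/
theorem run_range (t : ℂ) (r : ℕ) (L : ℕ → ℂ) (h0 : L 0 = 0) :
    run t (List.range r) L = Tr t (r + 1) L := by
  induction r with
  | zero =>
    funext j
    unfold Tr
    rw [List.range_zero, run_nil]
    split_ifs with h
    · have : j = 0 := by omega
      subst this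
      rw [h0, pow_zero, one_mul, zero_add, sub_self]
    · rfl
  | succ r ih =>
    rw [List.range_succ, run_append, ih]
    funext j
    rw [run_cons, run_nil]
    unfold sg
    by_cases hj : j = r + 1
    · subst hj
      rw [Function.update_self]
      unfold Tr
      rw [if_neg (by omega : ¬ r + 1 + 1 < r + 1), if_neg (by omega : ¬ r + 1 < r + 1),
        if_pos (by omega : r + 1 - 1 < r + 1), if_pos (by omega : r + 1 < r + 1 + 1),
        Nat.add_sub_cancel, pow_succ]
      ring
    · rw [Function.update_of_ne hj]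
      unfold Tr
      by_cases h1 : j < r + 1
      · rw [if_pos h1, if_pos (by omega)]
      · rw [if_neg h1, if_neg (by omega)]

section bridge

variable {s : ℂ} {n : ℕ}

/-- the gauge -/
noncomputable def lam (s : ℂ) (n : ℕ) (u : Fin n → ℂ) : ℕ → ℂ :=
  fun j => if h : 1 ≤ j ∧ j ≤ n then s ^ (j - 1) * u ⟨j - 1, by omega⟩ else 0

theorem lam_zero (u : Fin n → ℂ) : lam s n u 0 = 0 := by
  unfold lam
  rw [dif_neg (by omega)]

theorem lam_gt (u : Fin n → ℂ) {j : ℕ} (h : n < j) : lam s n u j = 0 := by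
  unfold lam
  rw [dif_neg (by omega)]

theorem lam_succ (u : Fin n → ℂ) {j : ℕ} (h : j < n) : lam s n u (j + 1) = s ^ j * u ⟨j, h⟩ := by
  unfold lam
  rw [dif_pos (by omega)]
  rfl

/-- extension by zero -/
def ext0 (u : Fin n → ℂ) (j : ℕ) : ℂ := if h : j < n then u ⟨j, h⟩ else 0

theorem lam_succ' (u : Fin n → ℂ) (j : ℕ) : lam s n u (j + 1) = s ^ j * ext0 u j := by
  unfold ext0
  split_ifs with h
  · exact lam_succ u h
  · rw [mul_zero]
    exact lam_gt u (by omega)

theorem ell_dot (a : ℕ) (ha : a < n) (u : Fin n → ℂ) :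
    ell s n a ⬝ᵥ u = (1 + s ^ 2) * u ⟨a, ha⟩ - s * ext0 u (a + 1) -
      s * (if a = 0 then 0 else ext0 u (a - 1)) := by
  unfold dotProduct ell
  have e : ∀ j : Fin n, (if (j : ℕ) = a then 1 + s ^ 2 else
      if (j : ℕ) + 1 = a ∨ a + 1 = (j : ℕ) then -s else 0) * u j =
      (if (j : ℕ) = a then (1 + s ^ 2) * u j else 0) + (if a + 1 = (j : ℕ) then -s * u j else 0) +
        (if (j : ℕ) + 1 = a then -s * u j else 0) := by
    intro j
    by_cases h1 : (j : ℕ) = a
    · rw [if_pos h1, if_pos h1, if_neg (by omega), if_neg (by omega)]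
      ring
    · rw [if_neg h1, if_neg h1]
      by_cases h2 : (j : ℕ) + 1 = a
      · rw [if_pos (Or.inl h2), if_neg (by omega), if_pos h2]
        ring
      · by_cases h3 : a + 1 = (j : ℕ)
        · rw [if_pos (Or.inr h3), if_pos h3, if_neg h2]
          ring
        · rw [if_neg (by tauto), if_neg h3, if_neg h2]
          ring
  rw [Finset.sum_congr rfl fun j _ => e j, Finset.sum_add_distrib, Finset.sum_add_distrib]
  have s1 : ∑ j : Fin n, (if (j : ℕ) = a then (1 + s ^ 2) * u j else 0) =
      (1 + s ^ 2) * u ⟨a, ha⟩ := by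
    rw [Finset.sum_eq_single (⟨a, ha⟩ : Fin n)]
    · rw [if_pos rfl]
    · intro b _ hb
      rw [if_neg fun h => hb (Fin.ext h)]
    · intro h
      exact absurd (Finset.mem_univ _) h
  have s2 : ∑ j : Fin n, (if a + 1 = (j : ℕ) then -s * u j else 0) = -s * ext0 u (a + 1) := by
    unfold ext0
    split_ifs with h
    · rw [Finset.sum_eq_single (⟨a + 1, h⟩ : Fin n)]
      · rw [if_pos rfl]
      · intro b _ hb
        rw [if_neg fun h => hb (Fin.ext h.symm)]
      · intro h
        exact absurd (Finset.mem_univ _) h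
    · rw [mul_zero]
      refine Finset.sum_eq_zero fun b _ => ?_
      rw [if_neg]
      have := b.2
      omega
  have s3 : ∑ j : Fin n, (if (j : ℕ) + 1 = a then -s * u j else 0) =
      -s * (if a = 0 then 0 else ext0 u (a - 1)) := by
    split_ifs with h
    · rw [mul_zero]
      refine Finset.sum_eq_zero fun b _ => ?_
      rw [if_neg (by omega)]
    · unfold ext0
      rw [dif_pos (by omega), Finset.sum_eq_single (⟨a - 1, by omega⟩ : Fin n)]
      · rw [if_pos (by simp only []; omega)]
      · intro b _ hb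
        rw [if_neg fun h' => hb (Fin.ext (by simp only []; omega))]
      · intro h
        exact absurd (Finset.mem_univ _) h
  rw [s1, s2, s3]
  ring

theorem lam_Bm {a : ℕ} (ha : a < n) (u : Fin n → ℂ) :
    lam s n (Bm s n a *ᵥ u) = sg (s ^ 2) (a + 1) (lam s n u) := by
  have hB : ∀ i : Fin n, (Bm s n a *ᵥ u) i = if (i : ℕ) = a then
      u i - ell s n a ⬝ᵥ u else u i := by
    intro i
    unfold Bm Pm
    rw [sub_mulVec, one_mulVec, Pi.sub_apply]
    have : (vecMulVec (del n a) (ell s n a) *ᵥ u) i = del n a i * (ell s n a ⬝ᵥ u) := by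
      change ∑ j, del n a i * ell s n a j * u j = del n a i * ∑ j, ell s n a j * u j
      rw [Finset.mul_sum]
      exact Finset.sum_congr rfl fun j _ => mul_assoc _ _ _
    rw [this]
    unfold del
    split_ifs with h
    · rw [one_mul]
    · rw [zero_mul, sub_zero]
  funext j
  unfold sg
  rcases Nat.eq_zero_or_pos j with rfl | hj
  · rw [Function.update_of_ne (by omega), lam_zero, lam_zero]
  obtain ⟨j, rfl⟩ : ∃ i, j = i + 1 := ⟨j - 1, by omega⟩
  by_cases hja : j = a
  · subst hja
    rw [Function.update_self, lam_succ _ ha, hB, if_pos rfl, ell_dot j ha, lam_succ' u (j + 1),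
      lam_succ _ ha, Nat.add_sub_cancel]
    have e3 : lam s n u j = if j = 0 then 0 else s ^ (j - 1) * ext0 u (j - 1) := by
      split_ifs with h
      · subst h
        exact lam_zero u
      · obtain ⟨i, rfl⟩ : ∃ i, j = i + 1 := ⟨j - 1, by omega⟩
        rw [Nat.add_sub_cancel]
        exact lam_succ' u i
    rw [e3]
    split_ifs with h
    · subst h
      ring
    · obtain ⟨i, rfl⟩ : ∃ i, j = i + 1 := ⟨j - 1, by omega⟩
      rw [Nat.add_sub_cancel]
      ring
  · rw [Function.update_of_ne (by omega)]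
    by_cases hjn : j < n
    · rw [lam_succ _ hjn, lam_succ _ hjn, hB, if_neg hja]
    · rw [lam_gt _ (by omega), lam_gt _ (by omega)]

theorem lam_W (w : List ℕ) (hw : ∀ a ∈ w, a < n) (u : Fin n → ℂ) :
    lam s n (W s n w.reverse *ᵥ u) = run (s ^ 2) w (lam s n u) := by
  induction w generalizing u with
  | nil => rw [List.reverse_nil, W_nil, one_mulVec, run_nil]
  | cons a w ih =>
    rw [List.reverse_cons, W_append, W_cons, W_nil, mul_one, ← mulVec_mulVec,
      ih (fun b hb => hw b (List.mem_cons_of_mem _ hb)), lam_Bm (hw a (by simp)), run_cons]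

/-- The symmetric form for which the letters are self-adjoint. -/
noncomputable def Jm (s : ℂ) (n : ℕ) : Matrix (Fin n) (Fin n) ℂ := of fun i j => ell s n i j

theorem ell_symm (s : ℂ) (i j : Fin n) : ell s n i j = ell s n j i := by
  unfold ell
  by_cases h : (j : ℕ) = i
  · rw [if_pos h, if_pos h.symm]
  · rw [if_neg h, if_neg (show ¬ (i : ℕ) = j from fun h' => h h'.symm)]
    by_cases h2 : (j : ℕ) + 1 = i ∨ (i : ℕ) + 1 = j
    · rw [if_pos h2, if_pos (show (i : ℕ) + 1 = j ∨ (j : ℕ) + 1 = i from h2.symm)]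
    · rw [if_neg h2, if_neg (show ¬ ((i : ℕ) + 1 = j ∨ (j : ℕ) + 1 = i) from
        fun h' => h2 h'.symm)]

theorem Jm_Pm {a : ℕ} (ha : a < n) : Jm s n * Pm s n a = (Pm s n a)ᵀ * Jm s n := by
  have e1 : Jm s n * Pm s n a = vecMulVec (ell s n a) (ell s n a) := by
    unfold Pm
    ext i j
    rw [mul_apply]
    simp only [vecMulVec_apply]
    rw [Finset.sum_eq_single (⟨a, ha⟩ : Fin n)]
    · unfold Jm del
      rw [if_pos rfl, one_mul, of_apply, ell_symm s i ⟨a, ha⟩]
    · intro b _ hb
      have : (b : ℕ) ≠ a := fun h => hb (Fin.ext h)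
      unfold del
      rw [if_neg this]
      ring
    · intro h
      exact absurd (Finset.mem_univ _) h
  have hs : (Jm s n)ᵀ = Jm s n := by
    ext i j
    rw [transpose_apply]
    exact ell_symm s j i
  rw [← transpose_transpose (Jm s n * Pm s n a), e1]
  have e2 : (vecMulVec (ell s n a) (ell s n a) : Matrix (Fin n) (Fin n) ℂ)ᵀ =
      vecMulVec (ell s n a) (ell s n a) := by
    ext i j
    simp only [transpose_apply, vecMulVec_apply]
    ring
  rw [e2, ← e1, transpose_mul, hs]

theorem Jm_W (w : List ℕ) (hw : ∀ a ∈ w, a < n) :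
    Jm s n * W s n w = (W s n w.reverse)ᵀ * Jm s n := by
  induction w with
  | nil => simp
  | cons a w ih =>
    have h1 : Jm s n * Bm s n a = (Bm s n a)ᵀ * Jm s n := by
      unfold Bm
      rw [mul_sub, mul_one, Jm_Pm (hw a (by simp)), transpose_sub, transpose_one, sub_mul, one_mul]
    rw [W_cons, ← mul_assoc, h1, mul_assoc, ih (fun b hb => hw b (List.mem_cons_of_mem _ hb)),
      List.reverse_cons, W_append, W_cons, W_nil, mul_one, transpose_mul, mul_assoc]

/-- The form is nondegenerate. -/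
theorem Jm_inj (h0 : s ≠ 0) (h1 : ‖s‖ < 1) {v : Fin n → ℂ} (hv : Jm s n *ᵥ v = 0) : v = 0 := by
  -- `ext0 v` is a solution of a recursion
  have hrec : ∀ j < n, (1 + s ^ 2) * ext0 v j - s * ext0 v (j + 1) -
      s * (if j = 0 then 0 else ext0 v (j - 1)) = 0 := by
    intro j hj
    have h2 := congrFun hv ⟨j, hj⟩
    have h3 : (Jm s n *ᵥ v) ⟨j, hj⟩ = ell s n j ⬝ᵥ v := rfl
    rw [h3, ell_dot j hj] at h2
    have h4 : ext0 v j = v ⟨j, hj⟩ := by
      unfold ext0
      rw [dif_pos hj]
    rw [h4]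
    exact h2
  -- `s ^ j v_j = v_0 (1 + q + … + q ^ j)`, `q = s ^ 2`
  have hsol : ∀ j ≤ n, s ^ j * ext0 v j = ext0 v 0 * ∑ i ∈ Finset.range (j + 1), (s ^ 2) ^ i := by
    intro j
    induction j using Nat.strong_induction_on with
    | _ j ih =>
      intro hj
      rcases Nat.lt_or_ge j 2 with h2 | h2
      · interval_cases j
        · simp
        · have h3 := hrec 0 (by omega)
          rw [if_pos rfl] at h3
          rw [Finset.sum_range_succ, Finset.sum_range_one, pow_one, pow_zero, pow_one]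
          linear_combination -h3
      · obtain ⟨i, rfl⟩ : ∃ i, j = i + 2 := ⟨j - 2, by omega⟩
        have h3 := hrec (i + 1) (by omega)
        rw [if_neg (by omega), Nat.add_sub_cancel] at h3
        have h4 := ih i (by omega) (by omega)
        have h5 := ih (i + 1) (by omega) (by omega)
        have e1 : ∑ k ∈ Finset.range (i + 2 + 1), (s ^ 2) ^ k =
            ∑ k ∈ Finset.range (i + 1 + 1), (s ^ 2) ^ k + (s ^ 2) ^ (i + 2) := by
          rw [Finset.sum_range_succ]
        have e2 : ∑ k ∈ Finset.range (i + 1 + 1), (s ^ 2) ^ k =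
            ∑ k ∈ Finset.range (i + 1), (s ^ 2) ^ k + (s ^ 2) ^ (i + 1) := by
          rw [Finset.sum_range_succ]
        rw [e2] at h5
        rw [e1, e2]
        linear_combination (-s ^ (i + 1)) * h3 + (1 + s ^ 2) * h5 - s ^ 2 * h4
  have hn : ext0 v n = 0 := by
    unfold ext0
    rw [dif_neg (by omega)]
  have h2 := hsol n le_rfl
  rw [hn, mul_zero] at h2
  have hq : s ^ 2 ≠ 1 := by
    intro hq
    have : ‖s ^ 2‖ = 1 := by rw [hq]; simp
    rw [norm_pow] at this
    exact absurd this (pow_lt_one₀ (norm_nonneg _) h1 (by norm_num)).ne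
  have hsum : ∑ i ∈ Finset.range (n + 1), (s ^ 2) ^ i ≠ 0 := by
    intro h3
    have h4 := geom_sum_mul (s ^ 2) (n + 1)
    rw [h3, zero_mul] at h4
    have h5 : (s ^ 2) ^ (n + 1) = 1 := by linear_combination -h4
    have : ‖(s ^ 2) ^ (n + 1)‖ = 1 := by rw [h5]; simp
    rw [norm_pow, norm_pow, ← pow_mul] at this
    exact absurd this (pow_lt_one₀ (norm_nonneg _) h1 (by omega)).ne
  have hv0 : ext0 v 0 = 0 := by
    rcases mul_eq_zero.1 h2.symm with h | h
    · exact h
    · exact absurd h hsum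
  funext j
  have h3 := hsol j (by omega)
  rw [hv0, zero_mul] at h3
  have h4 := (mul_eq_zero.1 h3).resolve_left (pow_ne_zero _ h0)
  unfold ext0 at h4
  rw [dif_pos j.2] at h4
  exact h4

/-- A zero of the determinant gives a vector fixed by the word read from the left. -/
theorem exists_fixed (h0 : s ≠ 0) (h1 : ‖s‖ < 1) {w : List ℕ} (hw : ∀ a ∈ w, a < n)
    (hdet : det (1 - W s n w) = 0) :
    ∃ L : ℕ → ℂ, L ≠ 0 ∧ L 0 = 0 ∧ (∀ j, n < j → L j = 0) ∧ run (s ^ 2) w L = L := by
  have hJ : IsUnit (Jm s n).det := by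
    rw [isUnit_iff_ne_zero]
    intro hd
    obtain ⟨v, hv, hv0⟩ := exists_mulVec_eq_zero_iff.2 hd
    exact hv (Jm_inj h0 h1 hv0)
  have hrev : det (1 - W s n w.reverse) = 0 := by
    have h2 : Jm s n * (1 - W s n w) = (1 - W s n w.reverse)ᵀ * Jm s n := by
      rw [mul_sub, mul_one, Jm_W w hw, transpose_sub, transpose_one, sub_mul, one_mul]
    have h3 := congrArg det h2
    rw [det_mul, det_mul, hdet, mul_zero, det_transpose] at h3
    exact (mul_eq_zero.1 h3.symm).resolve_right hJ.ne_zero
  obtain ⟨u, hu, hu0⟩ := exists_mulVec_eq_zero_iff.2 hrev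
  rw [sub_mulVec, one_mulVec, sub_eq_zero] at hu0
  refine ⟨lam s n u, ?_, lam_zero u, fun j hj => lam_gt u hj, ?_⟩
  · intro hl
    apply hu
    funext i
    have h4 := congrFun hl (i + 1)
    rw [lam_succ _ i.2] at h4
    exact (mul_eq_zero.1 h4).resolve_left (pow_ne_zero _ h0)
  · rw [← lam_W w hw, ← hu0]

end bridge

end Pool.Agent.Helper69.LZ
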