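import Pool.Agent.Helper69.LZ.Act
import Pool.Agent.Helper69.S4.Final

/-!
# From vectors without fixed words to zeros and coefficients of the Conway polynomial
-/

set_option autoImplicit false

namespace Pool.Agent.Helper69.LZ

open Matrix Polynomial Pool.Agent.Helper76.Conway Pool.Agent.Helper76.Conway.Top
  Pool.Agent.Helper99.ZB Pool.Agent.Helper69.S4

/-- Outside of the sector `‖1 - t‖ < 2 (1 - ‖t‖)`. -/
theorem kappa_lt {s : ℂ} (h0 : s ≠ 0) (h1 : ‖s‖ < 1)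
    (hz : (s⁻¹ - s).im ^ 2 < 3 * (s⁻¹ - s).re ^ 2) :
    ‖1 - s ^ 2‖ < 2 * (1 - ‖s ^ 2‖) := by
  have hn : 0 < ‖s‖ := norm_pos_iff.2 h0
  have hq : 0 < 1 - ‖s‖ ^ 2 := by nlinarith
  have e1 : 1 - s ^ 2 = s * (s⁻¹ - s) := by
    field_simp
  have e2 : (s⁻¹ - s).re * ‖s‖ ^ 2 = s.re * (1 - ‖s‖ ^ 2) := by
    rw [Complex.sub_re, Complex.inv_re, Complex.normSq_eq_norm_sq]
    field_simp
  have e3 : s.re ^ 2 ≤ ‖s‖ ^ 2 := by
    rw [← Complex.normSq_eq_norm_sq, Complex.normSq_apply]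
    nlinarith [sq_nonneg s.im]
  have e4 : ((s⁻¹ - s).re * ‖s‖) ^ 2 ≤ (1 - ‖s‖ ^ 2) ^ 2 := by
    have h2 : ((s⁻¹ - s).re * ‖s‖) ^ 2 * ‖s‖ ^ 2 ≤ (1 - ‖s‖ ^ 2) ^ 2 * ‖s‖ ^ 2 := by
      calc ((s⁻¹ - s).re * ‖s‖) ^ 2 * ‖s‖ ^ 2 = ((s⁻¹ - s).re * ‖s‖ ^ 2) ^ 2 := by ring
        _ = s.re ^ 2 * (1 - ‖s‖ ^ 2) ^ 2 := by rw [e2]; ring
        _ ≤ ‖s‖ ^ 2 * (1 - ‖s‖ ^ 2) ^ 2 := mul_le_mul_of_nonneg_right e3 (by positivity)
        _ = _ := by ring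
    exact le_of_mul_le_mul_right h2 (by positivity)
  have e5 : ‖1 - s ^ 2‖ ^ 2 < (2 * (1 - ‖s‖ ^ 2)) ^ 2 := by
    rw [e1, norm_mul, mul_pow, ← Complex.normSq_eq_norm_sq (s⁻¹ - s), Complex.normSq_apply]
    have h3 : 0 < ‖s‖ ^ 2 := by positivity
    nlinarith
  rw [norm_pow]
  exact lt_of_pow_lt_pow_left₀ 2 (by positivity) e5

/-- The letters of the word fix no vector, for all parameters outside of the sector. -/
def Free (n : ℕ) (w : List ℕ) : Prop :=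
  ∀ s : ℂ, s ≠ 0 → ‖s‖ < 1 → ‖1 - s ^ 2‖ < 2 * (1 - ‖s ^ 2‖) →
    ∀ L : ℕ → ℂ, L 0 = 0 → (∀ j, n < j → L j = 0) → run (s ^ 2) w L = L → L = 0

section

variable {G : ℕ → Type} [∀ n, Group (G n)] {sg : ∀ n, ℕ → G n} {N : ∀ n, G n → ℤ[X]}

theorem zeros (h : Mk G sg N) {n : ℕ} {w : List ℕ} (hw : ∀ a ∈ w, a < n) (hf : Free n w) {z : ℂ}
    (hz : aeval z (N n (V (sg n) w)) = 0) : 3 * z.re ^ 2 ≤ z.im ^ 2 := by
  by_contra hcon
  push Not at hcon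
  obtain ⟨s, hs0, hs1, rfl⟩ := exists_s z
  rcases hs1.lt_or_eq with h1 | h1
  · have h2 := eval_eq h hs0 h1 n w hw
    rw [hz, zero_mul, zero_mul] at h2
    obtain ⟨L, hL, hL0, hLn, hLf⟩ := exists_fixed hs0 h1 hw h2.symm
    exact hL (hf s hs0 h1 (kappa_lt hs0 h1 hcon) L hL0 hLn hLf)
  · have e : (s⁻¹ - s).re = 0 := by
      rw [Complex.sub_re, Complex.inv_re, Complex.normSq_eq_norm_sq, h1]
      norm_num
    rw [e] at hcon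
    nlinarith [sq_nonneg (s⁻¹ - s).im]

theorem parity (h : Mk G sg N) {n : ℕ} {w : List ℕ} (hw : ∀ a ∈ w, a < n) :
    ∃ L : ℕ, ∀ j, (j + L) % 2 = 1 → (N n (V (sg n) w)).coeff j = 0 := by
  by_cases hf : ∀ a < n, a ∈ w
  · obtain ⟨μ, -, h2⟩ := h.topC n w hw hf
    exact ⟨μ, h2.par⟩
  · push Not at hf
    obtain ⟨a, ha, haw⟩ := hf
    refine ⟨0, fun j _ => ?_⟩
    rw [h.zero_of_missing n w hw a ha haw]
    simp

/-- Log-concavity and the zero-free sector for a positive word without fixed vectors. -/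
theorem main_of_free (h : Mk G sg N) {n : ℕ} {w : List ℕ} (hw : ∀ a ∈ w, a < n) (hf : Free n w) :
    (∀ j : ℤ, cz (N n (V (sg n) w)) (j + 2) * cz (N n (V (sg n) w)) (j - 2) ≤
      cz (N n (V (sg n) w)) j ^ 2) ∧
    ∀ z : ℂ, aeval z (N n (V (sg n) w)) = 0 → 3 * z.re ^ 2 ≤ z.im ^ 2 := by
  obtain ⟨L, hL⟩ := parity h hw
  exact ⟨logConcave_main _ L hL fun _ z hz => zeros h hw hf hz, fun z hz => zeros h hw hf hz⟩

end

end Pool.Agent.Helper69.LZ
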